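import Pool.Agent.U762.GA.Asm

set_option autoImplicit false

/-!
# The logarithmic bound for the randomly perturbed 3x+1 map, with a constant

The fixed accelerated 3x+1 map `T` (on all integers) is perturbed: `T_ω(x) = T(x) + ω x`, where the `ω x`, `x ∈ ℤ`, are
independent with one law on a bounded set of integers, chosen once for all.  The law has a uniform component: it gives
mass at least `ε / 2^K` to each of `0, 1, …, 2^K - 1`; for instance, the value is not changed with probability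
`1 - ε` and otherwise a uniform element of `{0, …, 2^K - 1}` is added.

1. If `ε ≥ 1/5` then, for suitable `K`, almost surely every orbit is finite and has at most `42 log (2 + |x|) + C`
   elements, `x` the starting value.  (The constant which is conjectured for the 3x+1 map by Lagarias and Weiss is
   `41.677…`.)
2. For every generalized 3x+1 map of relatively prime type with positive multipliers `m_j` and every `ε > 0`: the
   same with `c log (2 + |x|) + C`, where `c log (1/λ) > 1 + θ`, `0 < θ, λ < 1`, `λ` greater than the mean of the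
   `(m_j/d)^θ` and greater than all `(1-ε) (m_j/d)^θ`.

Proof: the potential `|x|^θ` of the annealed chain decays like `λ^L`, so the probability that the first `L + 1` terms
of an orbit are different and not small is `O(λ^L |x|^θ)`; Borel-Cantelli.
-/

namespace Pool.Agent.Results.MP_a1568a_nt.PerturbedLogarithmicBound

open MeasureTheory Filter Finset

/-- The accelerated 3x+1 map on the integers: `x/2` for even `x`, `(3x+1)/2` for odd `x`. -/
def col (x : ℤ) : ℤ := if x % 2 = 0 then x / 2 else (3 * x + 1) / 2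

/-- The generalized 3x+1 map: `(m_j x - r_j)/d` for `x ≡ j` modulo `d`. -/
def gen (d : ℕ) (m r : ℤ → ℤ) (x : ℤ) : ℤ := (m (x % d) * x - r (x % d)) / d

/-- Relatively prime type with positive multipliers: `d ≥ 2`, the `m_j` are positive and prime to `d`, and the
divisions are exact. -/
structure Coprime (d : ℕ) (m r : ℤ → ℤ) : Prop where
  two_le : 2 ≤ d
  pos : ∀ j : ℤ, 0 ≤ j → j < d → 0 < m j
  cop : ∀ j : ℤ, 0 ≤ j → j < d → IsCoprime (m j) (d : ℤ)
  dvd : ∀ j : ℤ, 0 ≤ j → j < d → (d : ℤ) ∣ m j * j - r j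

/-- The map `S` perturbed by `ω`. -/
def pert (S ω : ℤ → ℤ) (x : ℤ) : ℤ := S x + ω x

/-- The orbit of `x` under the perturbed map. -/
def orbit (S ω : ℤ → ℤ) (x : ℤ) : Set ℤ := Set.range fun i : ℕ => (pert S ω)^[i] x

/-- The law of one perturbation is carried by the integers of modulus at most `B`, and has mass at least `ε / d^K`
at each of `0, 1, …, d^K - 1`. -/
structure Law (d : ℕ) (ε : ℝ) (K B : ℕ) (μ : Measure ℤ) : Prop where
  bdd : μ {u : ℤ | (B : ℤ) < |u|} = 0
  mass : ∀ u : ℤ, 0 ≤ u → u < (d : ℤ) ^ K → ε / (d : ℝ) ^ K ≤ μ.real {u}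

/-- All orbits are finite, and that of `x` has at most `c log (2 + |x|) + C` elements, with one constant `C`. -/
def Bounded (c : ℝ) (S ω : ℤ → ℤ) : Prop := ∃ C : ℝ, ∀ x : ℤ, (orbit S ω x).Finite ∧
  ((orbit S ω x).ncard : ℝ) ≤ c * Real.log (2 + |(x : ℝ)|) + C

theorem result :
    (∀ ε : ℝ, 1 / 5 ≤ ε → ε < 1 → ∃ K : ℕ, ∀ (B : ℕ) (μ : Measure ℤ) [IsProbabilityMeasure μ],
      Law 2 ε K B μ → ∀ᵐ ω ∂(Measure.infinitePi fun _ : ℤ => μ), Bounded 42 col ω) ∧
    (∀ (d : ℕ) (m r : ℤ → ℤ), Coprime d m r → ∀ θ lam ε c : ℝ, 0 < θ → θ < 1 → 0 < lam → lam < 1 →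
      (∑ j ∈ range d, ((m (j : ℤ) : ℝ) / d) ^ θ) / d < lam → 0 < ε → ε < 1 →
      (∀ j ∈ range d, (1 - ε) * ((m (j : ℤ) : ℝ) / d) ^ θ < lam) → 1 + θ < c * Real.log (1 / lam) →
      ∃ K : ℕ, ∀ (B : ℕ) (μ : Measure ℤ) [IsProbabilityMeasure μ],
        Law d ε K B μ → ∀ᵐ ω ∂(Measure.infinitePi fun _ : ℤ => μ), Bounded c (gen d m r) ω) := by
  refine ⟨fun ε h0 h1 => ?_, fun d m r h θ lam ε c h0 h1 hl0 hl1 hs he0 he1 hm hc => ?_⟩
  · obtain ⟨K, hK⟩ := Pool.Agent.U762.GA.lenb3 ε h0 h1
    refine ⟨K, fun B μ hμ hlaw => ?_⟩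
    exact hK B μ hlaw.bdd (fun u hu0 hu1 => by
      have := hlaw.mass u hu0 (by exact_mod_cast hu1)
      exact_mod_cast this)
  · obtain ⟨K, hK⟩ := Pool.Agent.U762.GA.lenb d m r ⟨h.two_le, h.pos, h.cop, h.dvd⟩ θ lam ε c h0 h1 hl0 hl1 hs
      he0 he1 hm hc
    exact ⟨K, fun B μ hμ hlaw => hK B μ hlaw.bdd hlaw.mass⟩

end Pool.Agent.Results.MP_a1568a_nt.PerturbedLogarithmicBound
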