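import Pool.Agent.U142.HS7

set_option autoImplicit false

/-!
# Small fractional parts of polynomials at the integers with a short total stopping time

Let `C > 2 / log (4 / 3)`. For every `k` and `r` there is `c > 0` such that every system of `r` real polynomials
of degree at most `k` without constant and linear terms has at some `n ≤ X` with total stopping time at most
`C log n` values which all have distance at most `X ^ (-c)` to the integers, for all large `X`, uniformly
in the polynomials; `n` can moreover be taken in the multiples of any `q ≤ X ^ c`. So the logarithmic bound of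
the question holds somewhere in each of the very sparse sets (Bohr sets of higher degree) which arise in the
theorems of Heilbronn and Schmidt on small fractional parts of polynomials.

Method. A Weyl inequality for the integers `n ≤ N` whose total stopping time is at most `B`, for every
`B ≥ 3 log N`, with a power saving and with constants that do not depend on `B`: the indicator function of
these integers takes the same value at two integers whose trajectories are at the same point at a time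
`j` with `2 ^ j ≤ N`, and this is sufficient for the dispersion argument of the starting files. If a system of
monomials has no small fractional parts on the set, then powers of Dirichlet kernels give an integral
linear combination, with small coefficients, for which the exponential sum over the set is large; by the
Weyl inequality its leading coefficient is near a rational number with a small denominator; on the
multiples of a suitable small integer this eliminates one of the monomials, and one proceeds by induction on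
the number of the monomials, from `X` to `X ^ (1 / 4)` and from `q` to a multiple of `q`.
-/

namespace Pool.Agent.Results.MP_a1568a_nt.SmallFractionalParts

/-- the `3x+1` function -/
def T (n : ℕ) : ℕ := if n % 2 = 0 then n / 2 else (3 * n + 1) / 2

/-- `t` is the total stopping time of `n` -/
def IsTotalStoppingTime (n t : ℕ) : Prop := T^[t] n = 1 ∧ ∀ j < t, T^[j] n ≠ 1

/-- `n` has a finite total stopping time, which is at most `B` -/
def Short (B : ℝ) (n : ℕ) : Prop := ∃ t : ℕ, IsTotalStoppingTime n t ∧ (t : ℝ) ≤ B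

/-- the distance of `x` to the nearest integer -/
noncomputable def distZ (x : ℝ) : ℝ := |x - round x|

/-- `exp (2 π i x)` -/
noncomputable def e (x : ℝ) : ℂ := Complex.exp (2 * Real.pi * x * Complex.I)

/-- `r` real polynomials of degree at most `k` without constant and linear terms -/
def System (k r : ℕ) (f : Fin r → Polynomial ℝ) : Prop :=
  ∀ i, (f i).natDegree ≤ k ∧ (f i).coeff 0 = 0 ∧ (f i).coeff 1 = 0

open Pool.Agent.U142.HS Finset

open Classical in
theorem weyl {k : ℕ} (hk : 2 ≤ k) {η : ℝ} (hη : 0 < η) : ∃ K c : ℝ, 0 < c ∧ ∀ N : ℕ, 1 ≤ N → ∀ B : ℝ, 3 * Real.log N ≤ B →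
    ∀ P : Polynomial ℝ, P.natDegree ≤ k →
    (∀ l : ℕ, 1 ≤ l → (l : ℝ) ≤ (N : ℝ) ^ η → ∀ a : ℤ, (N : ℝ) ^ (η + 1 - k) ≤ |l * P.coeff k - a|) →
    ‖∑ n ∈ (Finset.Icc 1 N).filter (Short B), e (P.eval (n : ℝ))‖ ≤ K * (N : ℝ) ^ (1 - c) := by
  obtain ⟨K, c, -, hc, -, H⟩ := weylP (d := 1) (Or.inl rfl) hk hη
  refine ⟨K, c, hc, fun N hN B hB P hP hmin => ?_⟩
  have hlog0 : 0 ≤ Real.log N := Real.log_nonneg (by exact_mod_cast hN)
  have hB0 : 0 ≤ B := by linarith
  have hsync : SyncN 1 N (FB ⌊B⌋₊) := sync_FB fun j hj1 hj => Nat.le_floor ((steps_le hN hj1 hj).trans hB)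
  have h1 := H N hN _ hsync P hP hmin
  refine le_trans (le_of_eq ?_) h1
  congr 1
  rw [sum_filter]
  apply sum_congr rfl
  intro n _
  have h2 : Short B n ↔ ∃ t, t ≤ ⌊B⌋₊ ∧ (Pool.Agent.Y965.PS.Tz 1)^[t] (n : ℤ) = 1 := by
    constructor
    · rintro ⟨t, ⟨h3, -⟩, h4⟩
      refine ⟨t, Nat.le_floor h4, ?_⟩
      rw [Tz_iter]
      have h5 : Pool.Agent.Results.MP_a1568a_nt.JointLaw.T^[t] n = 1 := h3
      rw [h5]; rfl
    · rintro ⟨t, h3, h4⟩
      rw [Tz_iter] at h4
      have h5 : T^[t] n = 1 := by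
        have h6 : Pool.Agent.Results.MP_a1568a_nt.JointLaw.T^[t] n = 1 := by exact_mod_cast h4
        exact h6
      have hex : ∃ t, T^[t] n = 1 := ⟨t, h5⟩
      refine ⟨Nat.find hex, ⟨Nat.find_spec hex, fun j hj => Nat.find_min hex hj⟩, ?_⟩
      have h7 : Nat.find hex ≤ ⌊B⌋₊ := (Nat.find_min' hex h5).trans h3
      exact (by exact_mod_cast h7 : ((Nat.find hex : ℕ) : ℝ) ≤ (⌊B⌋₊ : ℝ)).trans (Nat.floor_le hB0)
  have h3 : e (P.eval (n : ℝ)) = Pool.Agent.Helper602.MK.ee (P.eval (n : ℝ)) := by
    unfold e Pool.Agent.Helper602.MK.ee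
    rfl
  unfold FB
  by_cases h4 : Short B n
  · rw [if_pos h4, if_pos (h2.1 h4), h3]; simp
  · rw [if_neg h4, if_neg (fun h => h4 (h2.2 h))]; simp

open Classical in
/-- (1) WEYL'S INEQUALITY. For `k ≥ 2` and `η > 0` there are `K` and `c > 0` such that for all `N ≥ 1`, all
`B ≥ 3 log N` and all real polynomials `P` of degree at most `k` such that the `k`-th coefficient multiplied by any
positive integer `l ≤ N ^ η` has distance at least `N ^ (η + 1 - k)` to the integers: the sum of `e (P n)` over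
the `n ≤ N` with total stopping time at most `B` is at most `K N ^ (1 - c)` in absolute value.
(2) SMALL FRACTIONAL PARTS. For `C > 2 / log (4 / 3)` and all `k`, `r` there are `c > 0` and `X₀` such that for
all `X ≥ X₀`, all `q ≤ X ^ c` and all systems of `r` real polynomials `f i` of degree at most `k` without
constant and linear terms there is a multiple `n` of `q`, `X ^ c ≤ n ≤ X`, with total stopping time at most
`C log n`, such that all values `f i n` have distance at most `X ^ (-c)` to the integers.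
(3) In particular for every such system there are infinitely many `n` with total stopping time at most
`C log n` such that all `f i n` have distance at most `n ^ (-c)` to the integers. -/
theorem result :
    (∀ k : ℕ, 2 ≤ k → ∀ η : ℝ, 0 < η → ∃ K c : ℝ, 0 < c ∧ ∀ N : ℕ, 1 ≤ N → ∀ B : ℝ, 3 * Real.log N ≤ B →
      ∀ P : Polynomial ℝ, P.natDegree ≤ k →
      (∀ l : ℕ, 1 ≤ l → (l : ℝ) ≤ (N : ℝ) ^ η → ∀ a : ℤ, (N : ℝ) ^ (η + 1 - k) ≤ |l * P.coeff k - a|) →
      ‖∑ n ∈ (Finset.Icc 1 N).filter (Short B), e (P.eval (n : ℝ))‖ ≤ K * (N : ℝ) ^ (1 - c)) ∧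
    ∀ C : ℝ, 2 / Real.log (4 / 3) < C → ∀ k r : ℕ, ∃ c : ℝ, 0 < c ∧
      (∃ X₀ : ℕ, ∀ X : ℕ, X₀ ≤ X → ∀ q : ℕ, 1 ≤ q → (q : ℝ) ≤ (X : ℝ) ^ c → ∀ f : Fin r → Polynomial ℝ, System k r f →
        ∃ n : ℕ, 1 ≤ n ∧ (X : ℝ) ^ c ≤ n ∧ n ≤ X ∧ q ∣ n ∧ Short (C * Real.log n) n ∧
          ∀ i, distZ ((f i).eval (n : ℝ)) ≤ (X : ℝ) ^ (-c)) ∧
      ∀ f : Fin r → Polynomial ℝ, System k r f →
        {n : ℕ | 1 ≤ n ∧ Short (C * Real.log n) n ∧ ∀ i, distZ ((f i).eval (n : ℝ)) ≤ (n : ℝ) ^ (-c)}.Infinite := by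
  refine ⟨fun k hk η hη => weyl hk hη, fun C hC k r => ?_⟩
  obtain ⟨c, hc, X₀, hX₀, H⟩ := short_parts hC k r
  have H' : ∀ X : ℕ, X₀ ≤ X → ∀ q : ℕ, 1 ≤ q → (q : ℝ) ≤ (X : ℝ) ^ c → ∀ f : Fin r → Polynomial ℝ, System k r f →
        ∃ n : ℕ, 1 ≤ n ∧ (X : ℝ) ^ c ≤ n ∧ n ≤ X ∧ q ∣ n ∧ Short (C * Real.log n) n ∧
          ∀ i, distZ ((f i).eval (n : ℝ)) ≤ (X : ℝ) ^ (-c) := by
    intro X hX q hq hqX f hf
    obtain ⟨n, h1, h2, h3, h4, ⟨t, h5, h6⟩, h7⟩ := H X hX q hq hqX f hf
    exact ⟨n, h1, h2, h3, h4, ⟨t, h5, h6⟩, h7⟩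
  refine ⟨c, hc, ⟨X₀, H'⟩, fun f hf => ?_⟩
  rw [Set.infinite_iff_exists_gt]
  intro b
  have hlim := (tendsto_rpow_atTop hc).comp tendsto_natCast_atTop_atTop
  obtain ⟨X₁, hX₁⟩ := (hlim.eventually (Filter.eventually_gt_atTop (b : ℝ))).exists_forall_of_atTop
  have hXR : (1 : ℝ) ≤ ((X₀ + X₁ : ℕ) : ℝ) := by exact_mod_cast (by omega : 1 ≤ X₀ + X₁)
  obtain ⟨n, h1, h2, h3, -, h5, h6⟩ := H' (X₀ + X₁) (by omega) 1 le_rfl
    (by push_cast; exact Real.one_le_rpow (by push_cast at hXR; exact hXR) hc.le) f hf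
  have h7 : (b : ℝ) < (((X₀ + X₁ : ℕ) : ℝ)) ^ c := hX₁ _ (by omega)
  refine ⟨n, ⟨h1, h5, fun i => (h6 i).trans ?_⟩, ?_⟩
  · apply Real.rpow_le_rpow_of_nonpos (by exact_mod_cast h1) (by exact_mod_cast h3) (by linarith)
  · have : (b : ℝ) < n := lt_of_lt_of_le h7 h2
    exact_mod_cast this

end Pool.Agent.Results.MP_a1568a_nt.SmallFractionalParts
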