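import Pool.Agent.U457.PS.Low11

set_option autoImplicit false

/-!
# The tails of the law of the total stopping time do not decrease, and a power saving proves Q1

Let `T` be the 3x+1 function and `σ(n)` the total stopping time (infinite if `n` does not reach 1). For a
real number `B` let `late B X` be the number of the `n ≤ X` with `σ(n) > B`. We prove, with absolute
constants `c, K`:

1. every integer `a` which is not divisible by 3 is, for at least `c X / a` of the integers `n ≤ X`
   (`X ≥ K a`), the first term below `2 a` of the trajectory of `n`, after `t` steps with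
   `6 log (X / a) - K ≤ t ≤ 8 log (X / a) + K`;
2. for all `B` and `0 < Y ≤ X` the proportion of the `n ≤ X` with `σ(n) > B + 6 log (X / Y) - K` is at
   least `c` times the proportion of the `m ≤ Y` with `σ(m) > B`: up to a constant factor no
   part of the tail (for instance of the set of the integers which do not reach 1 in `C log Y` steps)
   gets lost at the larger scales;
3. so a bound `X ^ (1 - δ)` for the number of `n ≤ X` with `σ(n) > C log X`, however small `δ > 0` is and
   however large `C` is, implies `σ(n) ≤ C₁ log n` for every `n ≥ n₀` and every `C₁ > 6 + (C - 6) / δ`;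
4. Q1 holds if and only if for some `C` and `δ > 0` the number of the `n ≤ X` with `σ(n) > C log X` is
   `≤ X ^ (1 - δ)` for all large `X`. In other words: either Q1 is true, or for every `C` the set of the
   exceptions has exponent 1.

Proof: the quenched count of the predecessors of the starting library (`Pool.Agent.H320R2.PD`) gives words
whose lengths and sums are controlled, so the numbers of steps are; all intermediate terms are at least a
constant multiple of `a` (`low_core_t`), and a fixed number of halvings turns this into a first passage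
(`minor_t`). First passages at different `a` in a dyadic interval are disjoint, which gives 2 for the
integers prime to 3; the multiples `2 ^ v u` of 3 are replaced by `(3 u + 1) / 2`. The loss of `v + 1` steps
is smaller than the gain `6 v log 2`.
-/

namespace Pool.Agent.Results.MP_a1568a_nt.TailsOverScales

open Filter

/-- The 3x+1 function. -/
def T (n : ℕ) : ℕ := if n % 2 = 0 then n / 2 else (3 * n + 1) / 2

/-- The total stopping time of `n` is (finite and) at most `B`. -/
def Within (B : ℝ) (n : ℕ) : Prop := ∃ t : ℕ, (t : ℝ) ≤ B ∧ T^[t] n = 1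

/-- The number of the integers `1 ≤ n ≤ X` whose total stopping time is larger than `B` or infinite. -/
noncomputable def late (B X : ℝ) : ℝ := ({n : ℕ | 1 ≤ n ∧ (n : ℝ) ≤ X ∧ ¬ Within B n}.ncard : ℝ)

/-- The first term below `2 a` of the trajectory of `n` is `a`, after `t` steps with
`6 log (X / a) - K ≤ t ≤ 8 log (X / a) + K`. -/
def Descends (K X : ℝ) (n a : ℕ) : Prop :=
  ∃ t : ℕ, 6 * Real.log (X / a) - K ≤ t ∧ (t : ℝ) ≤ 8 * Real.log (X / a) + K ∧
    T^[t] n = a ∧ ∀ j < t, 2 * a ≤ T^[j] n

/-- The number of the integers `1 ≤ n ≤ X` with `Descends K X n a`. -/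
noncomputable def through (K X : ℝ) (a : ℕ) : ℝ :=
  ({n : ℕ | 1 ≤ n ∧ (n : ℝ) ≤ X ∧ Descends K X n a}.ncard : ℝ)

theorem result :
    (∃ c K : ℝ, 0 < c ∧ 1 ≤ K ∧
      (∀ (a : ℕ) (X : ℝ), ¬ 3 ∣ a → K * a ≤ X → c * (X / a) ≤ through K X a) ∧
      (∀ B X Y : ℝ, 0 < Y → Y ≤ X →
        c * (late B Y / Y) ≤ late (B + 6 * Real.log (X / Y) - K) X / X)) ∧
    (∀ C δ C₁ : ℝ, 0 < δ → δ ≤ 1 → 6 + (C - 6) / δ < C₁ →
      (∀ᶠ X : ℝ in atTop, late (C * Real.log X) X ≤ X ^ (1 - δ)) →
      ∀ᶠ n : ℕ in atTop, Within (C₁ * Real.log n) n) ∧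
    ((∃ C : ℝ, ∀ n : ℕ, 2 ≤ n → Within (C * Real.log n) n) ↔
      ∃ C δ : ℝ, 0 < δ ∧ ∀ᶠ X : ℝ in atTop, late (C * Real.log X) X ≤ X ^ (1 - δ)) := by
  refine ⟨?_, ?_, Pool.Agent.U457.PS.log_iff_saving⟩
  · obtain ⟨c, K, hc, hK, h1⟩ := Pool.Agent.U457.PS.minor_t
    obtain ⟨D, K', hD, hK', h2⟩ := Pool.Agent.U457.PS.tails
    refine ⟨min c (1 / D), max K K', lt_min hc (by positivity), hK.trans (le_max_left _ _), ?_, ?_⟩
    · intro a X ha hX
      have ha0 : (0 : ℝ) < a := by
        have : a ≠ 0 := by rintro rfl; exact ha (dvd_zero 3)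
        exact_mod_cast Nat.pos_of_ne_zero this
      have hKX : K * a ≤ X := (mul_le_mul_of_nonneg_right (le_max_left _ _) ha0.le).trans hX
      have hX0 : 0 ≤ X := le_trans (by positivity) hKX
      refine le_trans ?_ ((h1 a ha X hKX).trans ?_)
      · rw [mul_div_assoc]
        exact mul_le_mul_of_nonneg_right (min_le_left _ _) (by positivity)
      · unfold through
        apply Nat.cast_le.2
        apply Set.ncard_le_ncard _ (Pool.Agent.U457.PS.fin_le' X _ _)
        rintro n ⟨g1, g2, t, g3, g4, g5, g6⟩
        exact ⟨g1, g2, t, by linarith [le_max_left K K'], by linarith [le_max_left K K'], g5, g6⟩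
    · intro B X Y hY hXY
      have hX : 0 < X := by linarith
      have g := h2 B X Y hY hXY
      have g1 : Pool.Agent.U457.PS.NN (B + 6 * Real.log (X / Y) - K') X ≤
          late (B + 6 * Real.log (X / Y) - max K K') X :=
        Pool.Agent.U457.PS.NN_mono (by linarith [le_max_right K K']) le_rfl
      have g2 : late B Y * X ≤ D * Y * late (B + 6 * Real.log (X / Y) - max K K') X :=
        g.trans (mul_le_mul_of_nonneg_left g1 (by positivity))
      have hl : 0 ≤ late B Y / Y := div_nonneg (Nat.cast_nonneg _) hY.le
      refine (mul_le_mul_of_nonneg_right (min_le_right _ _) hl).trans ?_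
      rw [one_div_mul_eq_div, div_div, div_le_div_iff₀ (by positivity) hX]
      linarith
  · intro C δ C₁ hδ hδ1 hC h
    exact Pool.Agent.U457.PS.log_of_saving hδ hδ1 hC h

end Pool.Agent.Results.MP_a1568a_nt.TailsOverScales
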