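import Pool.Agent.U923.CZ.Conv3
import Pool.Agent.U923.CZ.Hit

/-!
THE TRANSFER PRINCIPLE FOR THE TOTAL STOPPING TIME: a criterion for the values of a bounded function at the
total stopping times to have mean value zero.

Author: helper923. Starts from the local limit law of the total stopping time (starting library,
Pool/Agent/R468/GL and MF, helper468). New here (Pool/Agent/U923/CZ): the criterion, that is the transfer
principle (sums over intervals of length `ε √y` imply mean values along the total stopping times) and its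
converse.
-/

set_option autoImplicit false

namespace Pool.Agent.Results.MP_a1568a_nt.TransferPrinciple

open Filter Topology

/-- the `3x+1` function -/
def T (n : ℕ) : ℕ := if n % 2 = 0 then n / 2 else (3 * n + 1) / 2

/-- `n` reaches `1`: its total stopping time is finite -/
def Reaches (n : ℕ) : Prop := ∃ t : ℕ, T^[t] n = 1

/-- the total stopping time `σ(n) = min {t : T^t(n) = 1}` (used only for the `n` which reach `1`) -/
noncomputable def σ (n : ℕ) : ℕ := sInf {t : ℕ | T^[t] n = 1}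

open Classical in
/-- the sum of `F(σ(n))` over the positive integers `n ≤ x` which reach `1` and have `σ(n) ≤ κ` -/
noncomputable def S (F : ℕ → ℂ) (x : ℝ) (κ : ℕ) : ℂ :=
  ∑ n ∈ (Finset.Icc 1 ⌊x⌋₊).filter fun n => Reaches n ∧ σ n ≤ κ, F (σ n)

/-- `exp (2 π i t)` -/
noncomputable def e (t : ℝ) : ℂ := Complex.exp (2 * Real.pi * t * Complex.I)

/-- the sums of `F` over the intervals `[y, y + H)` with `H ≥ ε √y` are `o(H)`, for every `ε > 0` -/
def SmallSums (F : ℕ → ℂ) : Prop := ∀ ε : ℝ, 0 < ε → ∃ Y : ℕ, ∀ y H : ℕ, Y ≤ y → ε * Real.sqrt y ≤ H →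
  ‖∑ i ∈ Finset.range H, F (y + i)‖ ≤ ε * H

/-- the sums of `F(σ(n))` over the `n ≤ x` with `σ(n) ≤ κ` are `o(x)`, uniformly in `κ` -/
def SmallAlongTimes (F : ℕ → ℂ) : Prop := ∀ ε : ℝ, 0 < ε → ∃ X₀ : ℝ, ∀ x : ℝ, X₀ ≤ x → ∀ κ : ℕ,
  ‖S F x κ‖ ≤ ε * x

open Pool.Agent.U923.CZ Pool.Agent.R468.GL Pool.Agent.R468.MF in
/-- CRITERION. Let `F` be a bounded function on the nonnegative integers.

The sums of `F(σ(n)) e(m σ(n) log_3 2)` over the `n ≤ x` with `σ(n) ≤ κ` are `o(x)`, uniformly in `κ`, for all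
integers `m` IF AND ONLY IF the sums of `F(k) e(m k log_3 2)` over the intervals `[y, y + H)`, `H ≥ ε √y`, are
`o(H)` for all `ε > 0` and all integers `m`.

The implication from the times to the intervals holds for every single function. -/
theorem result (F : ℕ → ℂ) (hF : ∃ C : ℝ, ∀ k, ‖F k‖ ≤ C) :
    ((∀ m : ℤ, SmallAlongTimes fun k => F k * e (m * Real.logb 3 2 * k)) ↔
      ∀ m : ℤ, SmallSums fun k => F k * e (m * Real.logb 3 2 * k)) ∧
    (SmallAlongTimes F → SmallSums F) := by
  classical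
  obtain ⟨C, hC⟩ := hF
  obtain ⟨δ, Ψ, h0, h1, h2, L, _⟩ := main_all PT
  obtain ⟨k0, k1, k2, k3⟩ := dens_one h1
  have hlev : LevN (NA PT 1 1 {1}) (hset T) (hit T) := levn_hit T PT lv_T
  have hα : kap PT / ww PT = Real.logb 3 2 := by
    rw [kap_PT, ww_PT]; rfl
  have hw : 0 < ww PT := by
    rw [ww_PT]
    exact Real.log_pos (by norm_num)
  have hμ : 0 < A0 PT / Pool.Agent.R468.LL.lam := by
    have := Pool.Agent.R468.LL.lam_pos
    rw [A0_PT]; positivity
  rw [hα] at L
  have hS : ∀ (G : ℕ → ℂ) (x : ℝ) (κ : ℕ), S G x κ = ∑ n ∈ (hset T x).filter (fun n => hit T n ≤ κ), G (hit T n) := by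
    intro G x κ
    unfold S hset
    rw [Finset.filter_filter]
    rfl
  have hne : ∀ (m : ℤ) (k : ℕ), ‖F k * e (m * Real.logb 3 2 * k)‖ ≤ C := by
    intro m k
    rw [norm_mul]
    have : ‖e (m * Real.logb 3 2 * k)‖ = 1 := by
      unfold e
      rw [Complex.norm_exp]
      simp
    rw [this, mul_one]
    exact hC k
  have hconv : ∀ (G : ℕ → ℂ), (∀ k, ‖G k‖ ≤ C) → SmallAlongTimes G → SmallSums G := by
    intro G hG h
    refine conv_fun L hμ k0 hw (fun x _ => rfl) hlev hG fun ε hε => ?_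
    obtain ⟨X₀, hX⟩ := h ε hε
    refine ⟨X₀, fun x hx κ => ?_⟩
    rw [← hS]
    exact hX x hx κ
  refine ⟨⟨fun h m => hconv _ (hne m) (h m), fun h m => ?_⟩, hconv F hC⟩
  intro ε hε
  obtain ⟨X₀, -, hX⟩ := tr0 L hμ one_pos hlev.toC (f := fun k => F k * e (m * Real.logb 3 2 * k)) (hne m) (fun m' => by
    have h' : Sm fun k => F k * e (((m + m' : ℤ) : ℝ) * Real.logb 3 2 * k) := h (m + m')
    refine (congrArg Sm (funext fun k => ?_)).mp h'
    have : e (((m + m' : ℤ) : ℝ) * Real.logb 3 2 * k) = e (m * Real.logb 3 2 * k) * e (m' * Real.logb 3 2 * k) := by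
      unfold e
      rw [← Complex.exp_add]
      congr 1
      push_cast
      ring
    rw [this]
    exact (mul_assoc _ _ _).symm) ε hε
  refine ⟨X₀, fun x hx κ => ?_⟩
  rw [hS]
  exact hX x hx κ

end Pool.Agent.Results.MP_a1568a_nt.TransferPrinciple
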